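import Pool.Agent.Results.MP_d62ce2_gt.NormPreservingHomeo

/-!
# Modular balls with sign patterns
-/

set_option autoImplicit false

namespace Pool.Agent.Y320.SP

open scoped NNReal ENNReal
open Pool.Agent.Results.MP_d62ce2_gt.NormPreservingHomeo (ball positiveBall)

universe u

/-- The total modular `∑ φ_i(|x_i|)` of a vector. -/
noncomputable def mod {κ : Type u} (φ : κ → (ℝ≥0 ≃o ℝ≥0)) (x : κ → ℝ) : ℝ≥0∞ :=
  ∑' i, (φ i ‖x i‖₊ : ℝ≥0∞)

/-- The norm. -/
noncomputable def nm {κ : Type u} (x : κ → ℝ) : ℝ≥0∞ := ∑' i, (‖x i‖₊ : ℝ≥0∞)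

/-- The ball with nonnegative coordinates on `Q`. -/
def M0 {κ : Type u} (Q : Set κ) : Set (κ → ℝ) := {x | nm x ≤ 1 ∧ ∀ i ∈ Q, 0 ≤ x i}

theorem mem_ball_iff {κ : Type u} (x : κ → ℝ) : x ∈ ball κ ↔ nm x ≤ 1 := by
  unfold nm
  rw [ENNReal.tsum_eq_iSup_sum, iSup_le_iff]
  refine forall_congr' fun s => ?_
  have h : (∑ i ∈ s, (‖x i‖₊ : ℝ≥0∞)) = ENNReal.ofReal (∑ i ∈ s, |x i|) := by
    rw [ENNReal.ofReal_sum_of_nonneg fun i _ => abs_nonneg _]
    refine Finset.sum_congr rfl fun i _ => ?_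
    rw [← Real.norm_eq_abs, ofReal_norm_eq_enorm]
    rfl
  rw [h, ENNReal.ofReal_le_one]

theorem nm_eq {κ : Type u} {x : κ → ℝ} (hx : x ∈ ball κ) :
    nm x = ENNReal.ofReal (∑' i, |x i|) := by
  have hs : Summable fun i => |x i| := summable_of_sum_le (fun i => abs_nonneg _) hx
  rw [ENNReal.ofReal_tsum_of_nonneg (fun i => abs_nonneg _) hs]
  refine tsum_congr fun i => ?_
  rw [← Real.norm_eq_abs, ofReal_norm_eq_enorm]
  rfl

/-- splitting the norm -/
theorem nm_split {κ : Type u} (R : Set κ) (x : κ → ℝ) :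
    nm x = nm (fun i : R => x i) + ∑' i : ↥Rᶜ, (‖x i‖₊ : ℝ≥0∞) := by
  unfold nm
  exact (Summable.tsum_add_tsum_compl (f := fun i => (‖x i‖₊ : ℝ≥0∞)) (s := R)
    ENNReal.summable ENNReal.summable).symm

/-- Replacing the coordinates in `R`. -/
noncomputable def repl {κ : Type u} (R : Set κ) (x : κ → ℝ) (u : R → ℝ) : κ → ℝ := by
  classical
  exact fun i => if h : i ∈ R then u ⟨i, h⟩ else x i

theorem repl_mem {κ : Type u} (R : Set κ) (x : κ → ℝ) (u : R → ℝ) {i : κ} (h : i ∈ R) :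
    repl R x u i = u ⟨i, h⟩ := by
  unfold repl
  exact dif_pos h

theorem repl_not {κ : Type u} (R : Set κ) (x : κ → ℝ) (u : R → ℝ) {i : κ} (h : i ∉ R) :
    repl R x u i = x i := by
  unfold repl
  exact dif_neg h

theorem repl_res {κ : Type u} (R : Set κ) (x : κ → ℝ) (u : R → ℝ) :
    (fun i : R => repl R x u i) = u := by
  funext i
  exact repl_mem R x u i.2

theorem nm_repl {κ : Type u} (R : Set κ) (x : κ → ℝ) (u : R → ℝ)
    (hu : nm u = nm (fun i : R => x i)) : nm (repl R x u) = nm x := by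
  rw [nm_split R, nm_split R x, repl_res, hu]
  congr 1
  refine tsum_congr fun i => ?_
  rw [repl_not R x u i.2]

theorem res_mem {κ : Type u} (R : Set κ) {x : κ → ℝ} (hx : nm x ≤ 1) :
    (fun i : R => x i) ∈ ball R := by
  rw [mem_ball_iff]
  refine le_trans ?_ hx
  rw [nm_split R x]
  exact le_self_add

theorem glue {κ : Type u} (Q R : Set κ) (hd : Disjoint Q R) (hR : R.Infinite) :
    ∃ f : M0 Q ≃ₜ M0 (Q ∪ R), ∀ x, nm (f x : κ → ℝ) = nm (x : κ → ℝ) := by
  classical
  have : Infinite R := hR.to_subtype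
  obtain ⟨g, hg⟩ := Pool.Agent.Results.MP_d62ce2_gt.NormPreservingHomeo.result (↥R)
  have hg1 : ∀ u : ball R, nm (g u : R → ℝ) = nm (u : R → ℝ) := by
    intro u
    rw [nm_eq u.2, nm_eq (g u).2.1, hg]
  have hg2 : ∀ v : positiveBall R, nm (g.symm v : R → ℝ) = nm (v : R → ℝ) := by
    intro v
    have := hg1 (g.symm v)
    rw [g.apply_symm_apply] at this
    exact this.symm
  have hQR : ∀ i ∈ Q, i ∉ R := fun i hi hi' => Set.disjoint_left.1 hd hi hi'
  let F : M0 Q → (κ → ℝ) := fun x => repl R x.1 (g ⟨fun i : R => x.1 i, res_mem R x.2.1⟩).1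
  have hF : ∀ x, nm (F x) = nm x.1 := fun x => nm_repl R _ _ (hg1 _)
  have hFm : ∀ x, F x ∈ M0 (Q ∪ R) := by
    intro x
    refine ⟨(hF x).trans_le x.2.1, ?_⟩
    intro i hi
    by_cases h : i ∈ R
    · simp only [F]
      rw [repl_mem R _ _ h]
      exact (g ⟨fun i : R => x.1 i, res_mem R x.2.1⟩).2.2 ⟨i, h⟩
    · simp only [F]
      rw [repl_not R _ _ h]
      exact x.2.2 i (hi.resolve_right h)
  have hp : ∀ y : M0 (Q ∪ R), (fun i : R => y.1 i) ∈ positiveBall R := fun y =>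
    ⟨res_mem R y.2.1, fun i => y.2.2 i (Or.inr i.2)⟩
  let G : M0 (Q ∪ R) → (κ → ℝ) := fun y => repl R y.1 (g.symm ⟨fun i : R => y.1 i, hp y⟩).1
  have hG : ∀ y, nm (G y) = nm y.1 := fun y => nm_repl R _ _ (hg2 _)
  have hGm : ∀ y, G y ∈ M0 Q := by
    intro y
    refine ⟨(hG y).trans_le y.2.1, ?_⟩
    intro i hi
    simp only [G]
    rw [repl_not R _ _ (hQR i hi)]
    exact y.2.2 i (Or.inl hi)
  have hFc : Continuous F := by
    refine continuous_pi fun i => ?_
    by_cases h : i ∈ R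
    · have e : (fun x => F x i) = fun x : M0 Q =>
          (g ⟨fun i : R => x.1 i, res_mem R x.2.1⟩).1 ⟨i, h⟩ := by
        funext x
        exact repl_mem R _ _ h
      rw [e]
      refine (continuous_apply _).comp (continuous_subtype_val.comp (g.continuous.comp ?_))
      refine Continuous.subtype_mk (continuous_pi fun j => ?_) _
      exact (continuous_apply _).comp continuous_subtype_val
    · have e : (fun x => F x i) = fun x : M0 Q => x.1 i := by
        funext x
        exact repl_not R _ _ h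
      rw [e]
      exact (continuous_apply _).comp continuous_subtype_val
  have hGc : Continuous G := by
    refine continuous_pi fun i => ?_
    by_cases h : i ∈ R
    · have e : (fun y => G y i) = fun y : M0 (Q ∪ R) =>
          (g.symm ⟨fun i : R => y.1 i, hp y⟩).1 ⟨i, h⟩ := by
        funext y
        exact repl_mem R _ _ h
      rw [e]
      refine (continuous_apply _).comp (continuous_subtype_val.comp (g.symm.continuous.comp ?_))
      refine Continuous.subtype_mk (continuous_pi fun j => ?_) _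
      exact (continuous_apply _).comp continuous_subtype_val
    · have e : (fun y => G y i) = fun y : M0 (Q ∪ R) => y.1 i := by
        funext y
        exact repl_not R _ _ h
      rw [e]
      exact (continuous_apply _).comp continuous_subtype_val
  refine ⟨{ toFun := fun x => ⟨F x, hFm x⟩, invFun := fun y => ⟨G y, hGm y⟩,
            left_inv := ?_, right_inv := ?_, continuous_toFun := hFc.subtype_mk _,
            continuous_invFun := hGc.subtype_mk _ }, hF⟩
  · intro x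
    apply Subtype.ext
    funext i
    by_cases h : i ∈ R
    · simp only [G]
      rw [repl_mem R _ _ h]
      have e : (⟨fun i : R => F x i, hp ⟨F x, hFm x⟩⟩ : positiveBall R) =
          g ⟨fun i : R => x.1 i, res_mem R x.2.1⟩ := by
        apply Subtype.ext
        exact repl_res R _ _
      have e2 := congrArg (fun v => (g.symm v).1 ⟨i, h⟩) e
      simp only [g.symm_apply_apply] at e2
      exact e2
    · simp only [G]
      rw [repl_not R _ _ h]
      exact repl_not R _ _ h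
  · intro y
    apply Subtype.ext
    funext i
    by_cases h : i ∈ R
    · simp only [F]
      rw [repl_mem R _ _ h]
      have e : (⟨fun i : R => G y i, res_mem R (hGm y).1⟩ : ball R) =
          g.symm ⟨fun i : R => y.1 i, hp y⟩ := by
        apply Subtype.ext
        exact repl_res R _ _
      have e2 := congrArg (fun v => (g v).1 ⟨i, h⟩) e
      simp only [g.apply_symm_apply] at e2
      exact e2
    · simp only [F]
      rw [repl_not R _ _ h]
      exact repl_not R _ _ h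

/-- norm-preserving equivalence -/
def Eqv {κ Λ : Type u} (A : Set (κ → ℝ)) (B : Set (Λ → ℝ)) : Prop :=
  ∃ f : A ≃ₜ B, ∀ x, nm (f x : Λ → ℝ) = nm (x : κ → ℝ)

theorem Eqv.trans {κ Λ Θ : Type u} {A : Set (κ → ℝ)} {B : Set (Λ → ℝ)} {C : Set (Θ → ℝ)}
    (h : Eqv A B) (h' : Eqv B C) : Eqv A C := by
  obtain ⟨f, hf⟩ := h
  obtain ⟨g, hg⟩ := h'
  exact ⟨f.trans g, fun x => (hg (f x)).trans (hf x)⟩

theorem Eqv.symm {κ Λ : Type u} {A : Set (κ → ℝ)} {B : Set (Λ → ℝ)}
    (h : Eqv A B) : Eqv B A := by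
  obtain ⟨f, hf⟩ := h
  refine ⟨f.symm, fun x => ?_⟩
  have := hf (f.symm x)
  rw [f.apply_symm_apply] at this
  exact this.symm

/-- All sign patterns are equivalent to the positive part. -/
theorem M0_univ {κ : Type u} [Infinite κ] (Q : Set κ) :
    Eqv (M0 Q) (M0 (Set.univ : Set κ)) := by
  by_cases h : Qᶜ.Infinite
  · have h1 : Eqv (M0 Q) (M0 (Q ∪ Qᶜ)) := glue Q Qᶜ disjoint_compl_right h
    rwa [Set.union_compl_self Q] at h1
  · have hQ : Q.Infinite := by
      intro hf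
      exact h hf.infinite_compl
    have h1 : Eqv (M0 (∅ : Set κ)) (M0 (∅ ∪ Q)) := glue ∅ Q (Set.empty_disjoint Q) hQ
    have h2 : Eqv (M0 (∅ : Set κ)) (M0 (∅ ∪ Set.univ)) :=
      glue ∅ Set.univ (Set.empty_disjoint _) Set.infinite_univ
    rw [Set.empty_union] at h1 h2
    exact h1.symm.trans h2

/-- Reindexing. -/
theorem reindex {κ Λ : Type u} (e : κ ≃ Λ) :
    Eqv (M0 (Set.univ : Set κ)) (M0 (Set.univ : Set Λ)) := by
  have h1 : ∀ x : κ → ℝ, nm (fun j => x (e.symm j)) = nm x := fun x =>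
    e.symm.tsum_eq fun i => (‖x i‖₊ : ℝ≥0∞)
  have h2 : ∀ y : Λ → ℝ, nm (fun j => y (e j)) = nm y := fun y =>
    e.tsum_eq fun i => (‖y i‖₊ : ℝ≥0∞)
  refine ⟨{ toFun := fun x => ⟨fun j => x.1 (e.symm j), (h1 x.1).trans_le x.2.1,
              fun j _ => x.2.2 _ trivial⟩
            invFun := fun y => ⟨fun j => y.1 (e j), (h2 y.1).trans_le y.2.1,
              fun j _ => y.2.2 _ trivial⟩
            left_inv := fun x => Subtype.ext (by funext i; simp)
            right_inv := fun x => Subtype.ext (by funext i; simp)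
            continuous_toFun := ?_
            continuous_invFun := ?_ }, fun x => h1 x.1⟩
  · refine Continuous.subtype_mk (continuous_pi fun j => ?_) _
    exact (continuous_apply _).comp continuous_subtype_val
  · refine Continuous.subtype_mk (continuous_pi fun j => ?_) _
    exact (continuous_apply _).comp continuous_subtype_val

/-! ### Modulars -/

/-- The odd extension of `φ`. -/
noncomputable def r (φ : ℝ≥0 ≃o ℝ≥0) (t : ℝ) : ℝ := (φ t.toNNReal : ℝ) - (φ (-t).toNNReal : ℝ)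

theorem phi_zero (φ : ℝ≥0 ≃o ℝ≥0) : φ 0 = 0 := by
  have := φ.map_bot
  simpa using this

theorem r_of_nonneg (φ : ℝ≥0 ≃o ℝ≥0) {t : ℝ} (ht : 0 ≤ t) : r φ t = φ t.toNNReal := by
  unfold r
  rw [Real.toNNReal_of_nonpos (by linarith : -t ≤ 0), phi_zero]
  simp

theorem r_neg (φ : ℝ≥0 ≃o ℝ≥0) (t : ℝ) : r φ (-t) = - r φ t := by
  unfold r
  rw [neg_neg]
  ring

theorem r_continuous (φ : ℝ≥0 ≃o ℝ≥0) : Continuous (r φ) := by
  unfold r
  exact (NNReal.continuous_coe.comp (φ.continuous.comp continuous_real_toNNReal)).sub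
    (NNReal.continuous_coe.comp (φ.continuous.comp (continuous_real_toNNReal.comp continuous_neg)))

theorem r_nonneg (φ : ℝ≥0 ≃o ℝ≥0) {t : ℝ} (ht : 0 ≤ t) : 0 ≤ r φ t := by
  rw [r_of_nonneg φ ht]
  exact NNReal.coe_nonneg _

theorem r_nonpos (φ : ℝ≥0 ≃o ℝ≥0) {t : ℝ} (ht : t ≤ 0) : r φ t ≤ 0 := by
  have h := r_nonneg φ (t := -t) (by linarith)
  rw [r_neg] at h
  linarith

theorem nnnorm_r (φ : ℝ≥0 ≃o ℝ≥0) (t : ℝ) : ‖r φ t‖₊ = φ ‖t‖₊ := by
  have key : ∀ s : ℝ, 0 ≤ s → ‖r φ s‖₊ = φ ‖s‖₊ := by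
    intro s hs
    rw [r_of_nonneg φ hs, Real.nnnorm_of_nonneg hs]
    have e : s.toNNReal = ⟨s, hs⟩ := Real.toNNReal_of_nonneg hs
    rw [e]
    exact NNReal.coe_injective (by simp; rfl)
  rcases le_total 0 t with h | h
  · exact key t h
  · have := key (-t) (by linarith)
    rwa [r_neg, nnnorm_neg, nnnorm_neg] at this

theorem r_symm (φ : ℝ≥0 ≃o ℝ≥0) (t : ℝ) : r φ.symm (r φ t) = t := by
  have key : ∀ s : ℝ, 0 ≤ s → r φ.symm (r φ s) = s := by
    intro s hs
    rw [r_of_nonneg φ.symm (r_nonneg φ hs), r_of_nonneg φ hs, Real.toNNReal_coe,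
      φ.symm_apply_apply, Real.coe_toNNReal s hs]
  rcases le_total 0 t with h | h
  · exact key t h
  · have := key (-t) (by linarith)
    rw [r_neg, r_neg] at this
    linarith

/-- The modular ball with sign restrictions: `x_i ≥ 0` on `P` and `x_i ≤ 0` on `N`. -/
def MB {κ : Type u} (φ : κ → (ℝ≥0 ≃o ℝ≥0)) (P N : Set κ) : Set (κ → ℝ) :=
  {x | mod φ x ≤ 1 ∧ (∀ i ∈ P, 0 ≤ x i) ∧ ∀ i ∈ N, x i ≤ 0}

/-- a sign -/
noncomputable def sg {κ : Type u} (N : Set κ) (i : κ) : ℝ := by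
  classical
  exact if i ∈ N then -1 else 1

theorem sg_mem {κ : Type u} {N : Set κ} {i : κ} (h : i ∈ N) : sg N i = -1 := by
  unfold sg
  exact if_pos h

theorem sg_not {κ : Type u} {N : Set κ} {i : κ} (h : i ∉ N) : sg N i = 1 := by
  unfold sg
  exact if_neg h

theorem sg_sq {κ : Type u} (N : Set κ) (i : κ) : sg N i * sg N i = 1 := by
  by_cases h : i ∈ N
  · rw [sg_mem h]; norm_num
  · rw [sg_not h]; norm_num

theorem sg_nn {κ : Type u} (N : Set κ) (i : κ) (t : ℝ) : ‖sg N i * t‖₊ = ‖t‖₊ := by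
  by_cases h : i ∈ N
  · rw [sg_mem h]; simp
  · rw [sg_not h]; simp

theorem MB_M0 {κ : Type u} (φ : κ → (ℝ≥0 ≃o ℝ≥0)) (P N : Set κ) (hd : Disjoint P N) :
    ∃ f : MB φ P N ≃ₜ M0 (P ∪ N), ∀ x, nm (f x : κ → ℝ) = mod φ (x : κ → ℝ) := by
  have hPN : ∀ i ∈ P, i ∉ N := fun i hi hi' => Set.disjoint_left.1 hd hi hi'
  have h1 : ∀ x : κ → ℝ, nm (fun i => sg N i * r (φ i) (x i)) = mod φ x := by
    intro x
    unfold nm mod
    refine tsum_congr fun i => ?_
    rw [sg_nn, nnnorm_r]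
  have h2 : ∀ y : κ → ℝ, mod φ (fun i => r (φ i).symm (sg N i * y i)) = nm y := by
    intro y
    unfold nm mod
    refine tsum_congr fun i => ?_
    rw [nnnorm_r, sg_nn, OrderIso.apply_symm_apply]
  refine ⟨{ toFun := fun x => ⟨fun i => sg N i * r (φ i) (x.1 i), (h1 x.1).trans_le x.2.1, ?_⟩
            invFun := fun y => ⟨fun i => r (φ i).symm (sg N i * y.1 i), (h2 y.1).trans_le y.2.1,
              ?_, ?_⟩
            left_inv := fun x => Subtype.ext ?_
            right_inv := fun x => Subtype.ext ?_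
            continuous_toFun := ?_
            continuous_invFun := ?_ }, fun x => h1 x.1⟩
  · intro i hi
    show 0 ≤ sg N i * r (φ i) (x.1 i)
    by_cases h : i ∈ N
    · rw [sg_mem h]
      have := r_nonpos (φ i) (x.2.2.2 i h)
      linarith
    · rw [sg_not h, one_mul]
      exact r_nonneg (φ i) (x.2.2.1 i (hi.resolve_right h))
  · intro i hi
    show 0 ≤ r (φ i).symm (sg N i * y.1 i)
    rw [sg_not (hPN i hi), one_mul]
    exact r_nonneg _ (y.2.2 i (Or.inl hi))
  · intro i hi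
    show r (φ i).symm (sg N i * y.1 i) ≤ 0
    rw [sg_mem hi]
    have := y.2.2 i (Or.inr hi)
    exact r_nonpos _ (by linarith)
  · funext i
    show r (φ i).symm (sg N i * (sg N i * r (φ i) (x.1 i))) = x.1 i
    rw [← mul_assoc, sg_sq, one_mul, r_symm]
  · funext i
    show sg N i * r (φ i) (r (φ i).symm (sg N i * x.1 i)) = x.1 i
    have := r_symm (φ i).symm (sg N i * x.1 i)
    rw [OrderIso.symm_symm] at this
    rw [this, ← mul_assoc, sg_sq, one_mul]
  · refine Continuous.subtype_mk (continuous_pi fun i => ?_) _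
    exact continuous_const.mul ((r_continuous (φ i)).comp
      ((continuous_apply i).comp continuous_subtype_val))
  · refine Continuous.subtype_mk (continuous_pi fun i => ?_) _
    exact (r_continuous (φ i).symm).comp (continuous_const.mul
      ((continuous_apply i).comp continuous_subtype_val))

theorem main {κ Λ : Type u} [Infinite κ] (e : κ ≃ Λ) (φ : κ → (ℝ≥0 ≃o ℝ≥0))
    (ψ : Λ → (ℝ≥0 ≃o ℝ≥0)) (P N : Set κ) (P' N' : Set Λ) (hd : Disjoint P N)
    (hd' : Disjoint P' N') :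
    ∃ f : MB φ P N ≃ₜ MB ψ P' N', ∀ x, mod ψ (f x : Λ → ℝ) = mod φ (x : κ → ℝ) := by
  have : Infinite Λ := Infinite.of_injective e e.injective
  obtain ⟨f, hf⟩ := MB_M0 φ P N hd
  obtain ⟨g, hg⟩ := MB_M0 ψ P' N' hd'
  obtain ⟨h, hh⟩ := ((M0_univ (P ∪ N)).trans (reindex e)).trans (M0_univ (P' ∪ N')).symm
  refine ⟨(f.trans h).trans g.symm, fun x => ?_⟩
  have h1 := hg (g.symm (h (f x)))
  rw [g.apply_symm_apply] at h1
  exact h1.symm.trans ((hh (f x)).trans (hf x))

end Pool.Agent.Y320.SP
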